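import Pool.Agent.Y394.AT.Color

set_option autoImplicit false

/-!
# Growth of the regions when many, but not all, continuations are heavy

A variant of the theorems `growth` and `colour` of `Pool.Agent.Y394.AT.Color`.
-/

namespace Pool.Agent.Q112.GS

open Finset Pool.Agent.Y394.AT

open Classical in
/-- Every arc `x y` has many helpers `z` in the neighbourhood of `y`, which have large codegree with
`x` and with almost all neighbours of `y`. -/
def Helped {V : Type} [Fintype V] (G : SimpleGraph V) (d ε δ ρ : ℝ) : Prop :=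
  ∀ x y, G.Adj x y → ∃ Z : Finset V, ρ * d ≤ (Z.card : ℝ) ∧ ∀ z ∈ Z, δ * d ≤ (cd G x z : ℝ) ∧
    (((nb G y).filter (fun w => (cd G z w : ℝ) < δ * d)).card : ℝ) ≤ ε * d

open Classical in
/-- the vertices with many connections to `a` through heavy pairs -/
noncomputable def Far2 {V : Type} [Fintype V] (G : SimpleGraph V) (d δ ρ : ℝ) (a : V) : Finset V :=
  (univ : Finset V).filter (fun w => ρ / 2 * d ≤ (((univ : Finset V).filter
    (fun z => δ / 2 * d ≤ (cd G a z : ℝ) ∧ δ * d ≤ (cd G z w : ℝ))).card : ℝ))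

theorem far2_card {V : Type} [Fintype V] {G : SimpleGraph V} {d : ℝ} (h : Reg G d)
    (hd : 0 < d) (δ ρ : ℝ) (hδ : 0 < δ) (hρ : 0 < ρ) (a : V) :
    ((Far2 G d δ ρ a).card : ℝ) ≤ 4 / (δ ^ 2 * ρ) * d := by
  classical
  set A := (univ : Finset V).filter (fun z => δ / 2 * d ≤ (cd G a z : ℝ)) with hA
  have hAc : (A.card : ℝ) ≤ d / (δ / 2) := heavy_card h hd (δ / 2) (by positivity) a
  have h1 := Finset.sum_card_bipartiteAbove_eq_sum_card_bipartiteBelow (s := A)
    (t := Far2 G d δ ρ a) (fun z w => δ * d ≤ (cd G z w : ℝ))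
  unfold Finset.bipartiteAbove Finset.bipartiteBelow at h1
  have h2 : ∀ w ∈ Far2 G d δ ρ a, ρ / 2 * d ≤
      ((A.filter (fun z => δ * d ≤ (cd G z w : ℝ))).card : ℝ) := by
    intro w hw
    have h3 := (Finset.mem_filter.1 hw).2
    rw [hA, Finset.filter_filter]
    exact h3
  have h3 : ∀ z ∈ A, (((Far2 G d δ ρ a).filter (fun w => δ * d ≤ (cd G z w : ℝ))).card : ℝ) ≤
      d / δ := by
    intro z _
    refine le_trans ?_ (heavy_card h hd δ hδ z)
    exact_mod_cast Finset.card_le_card (Finset.filter_subset_filter _ (Finset.subset_univ _))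
  have h4 : (ρ / 2 * d) * ((Far2 G d δ ρ a).card : ℝ) ≤ (d / (δ / 2)) * (d / δ) := by
    calc (ρ / 2 * d) * ((Far2 G d δ ρ a).card : ℝ)
        = ∑ w ∈ Far2 G d δ ρ a, ρ / 2 * d := by rw [Finset.sum_const, nsmul_eq_mul, mul_comm]
      _ ≤ ∑ w ∈ Far2 G d δ ρ a, ((A.filter (fun z => δ * d ≤ (cd G z w : ℝ))).card : ℝ) :=
          Finset.sum_le_sum h2
      _ = ∑ z ∈ A, (((Far2 G d δ ρ a).filter (fun w => δ * d ≤ (cd G z w : ℝ))).card : ℝ) := by
          exact_mod_cast h1.symm
      _ ≤ ∑ z ∈ A, d / δ := Finset.sum_le_sum h3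
      _ = (A.card : ℝ) * (d / δ) := by rw [Finset.sum_const, nsmul_eq_mul]
      _ ≤ (d / (δ / 2)) * (d / δ) := mul_le_mul_of_nonneg_right hAc (by positivity)
  have h5 : (d / (δ / 2)) * (d / δ) = (ρ / 2 * d) * (4 / (δ ^ 2 * ρ) * d) := by
    field_simp
    ring
  rw [h5] at h4
  exact le_of_mul_le_mul_left h4 (by positivity)

open Classical in
/-- **Growth.** -/
theorem growth' (N : ℕ) (δf D0 : ℝ → ℝ) (hδf : ∀ ε, 0 < ε → 0 < δf ε) (ρ : ℝ) (hρ : 0 < ρ) :
    ∀ (k : ℕ) (ε : ℝ), 0 < ε → ∃ C : ℝ, 0 ≤ C ∧ ∃ d1 : ℝ, ∀ (V : Type) [Fintype V]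
      (G : SimpleGraph V) (d : ℝ), d1 ≤ d → 1 ≤ d → Reg G d →
      (∀ ε, 0 < ε → D0 ε ≤ d → Helped G d ε (δf ε) ρ) →
      (∀ X : Finset V, Pool.Agent.W259.GS.Sh G X Set.univ → X.card < N) →
      ∀ u, ∃ K : Finset V, (K.card : ℝ) ≤ C * d ∧
        ∀ y, Rch G k u y → ((nb G y \ K).card : ℝ) ≤ ε * d := by
  intro k
  induction k with
  | zero =>
    intro ε hε
    refine ⟨1, zero_le_one, 0, ?_⟩
    intro V _ G d _ hd hreg _ _ u
    refine ⟨nb G u, ?_, ?_⟩
    · rw [one_mul]
      exact hreg.le (by linarith) u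
    · intro y hy
      rw [hy.zero, Finset.sdiff_self]
      simp only [Finset.card_empty, Nat.cast_zero]
      positivity
  | succ k ih =>
    intro ε hε
    have hε2 : 0 < ε / 2 := by positivity
    have hδ : 0 < δf (ε / 2) := hδf (ε / 2) hε2
    set δ := δf (ε / 2) with hδd
    set ε' : ℝ := δ / 8 with hε'
    have hε'0 : 0 < ε' := by positivity
    obtain ⟨C', hC'0, d1', hih⟩ := ih ε' hε'0
    set η : ℝ := ε' / (C' + 1) with hη
    have hη0 : 0 < η := by positivity
    obtain ⟨M, hM⟩ := packing_unif N η hη0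
    refine ⟨M * (4 / (δ ^ 2 * ρ)), by positivity, max d1' (D0 (ε / 2)), ?_⟩
    intro V _ G d hd1 hd hreg hheavy hsh u
    have hd0 : 0 < d := by linarith
    obtain ⟨K', hK'c, hK'⟩ := hih V G d ((le_max_left _ _).trans hd1) hd hreg hheavy hsh u
    have hhe := hheavy (ε / 2) hε2 ((le_max_right _ _).trans hd1)
    set K2 := insert u K' with hK2
    have hK2c : (K2.card : ℝ) ≤ (C' + 1) * d := by
      have h1 : K2.card ≤ K'.card + 1 := Finset.card_insert_le _ _
      have h2 : (K2.card : ℝ) ≤ K'.card + 1 := by exact_mod_cast h1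
      linarith
    have hηK : η * (K2.card : ℝ) ≤ ε' * d := by
      calc η * (K2.card : ℝ) ≤ η * ((C' + 1) * d) := mul_le_mul_of_nonneg_left hK2c hη0.le
        _ = ε' * d := by
          rw [hη]
          field_simp
    obtain ⟨U, hUX, hUfar, hUnet⟩ := exists_net ((univ : Finset V).filter (fun x => Rch G k u x))
      (fun x a => η * (K2.card : ℝ) ≤ Set.ncard {z | z ∈ K2 ∧ ¬ (G.Adj x z ↔ G.Adj a z)})
      (by
        intro x a hxa
        have : {z | z ∈ K2 ∧ ¬ (G.Adj a z ↔ G.Adj x z)} =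
            {z | z ∈ K2 ∧ ¬ (G.Adj x z ↔ G.Adj a z)} := by
          ext z
          simp only [Set.mem_ofPred_eq]
          tauto
        rw [this]
        exact hxa)
    have hUM : U.card < M := hM V G K2 (Finset.insert_nonempty _ _) hsh U hUfar
    refine ⟨U.biUnion (fun a => Far2 G d δ ρ a), ?_, ?_⟩
    · calc ((U.biUnion (fun a => Far2 G d δ ρ a)).card : ℝ)
          ≤ ∑ a ∈ U, ((Far2 G d δ ρ a).card : ℝ) := by
            exact_mod_cast Finset.card_biUnion_le
        _ ≤ ∑ a ∈ U, 4 / (δ ^ 2 * ρ) * d :=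
            Finset.sum_le_sum fun a _ => far2_card hreg hd0 δ ρ hδ hρ a
        _ = (U.card : ℝ) * (4 / (δ ^ 2 * ρ) * d) := by rw [Finset.sum_const, nsmul_eq_mul]
        _ ≤ (M : ℝ) * (4 / (δ ^ 2 * ρ) * d) := by
            apply mul_le_mul_of_nonneg_right _ (by positivity)
            exact_mod_cast hUM.le
        _ = M * (4 / (δ ^ 2 * ρ)) * d := by ring
    · intro y hy
      obtain ⟨x, hx, hxy⟩ := hy.step
      obtain ⟨Z, hZc, hZ⟩ := hhe x y hxy
      obtain ⟨a, haU, ha⟩ := hUnet x (Finset.mem_filter.2 ⟨Finset.mem_univ _, hx⟩)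
      -- codegrees with `x` and with `a`
      have hcode : ∀ w, (cd G x w : ℝ) ≤ cd G a w + δ / 2 * d := by
        intro w
        rcases ha with ha | ha
        · rw [← ha]
          have : 0 ≤ δ / 2 * d := by positivity
          linarith
        · rw [not_le] at ha
          have h1 : cd G x w ≤ cd G a w + ((nb G x \ K').card +
              Set.ncard {z | z ∈ K2 ∧ ¬ (G.Adj x z ↔ G.Adj a z)}) := by
            have h2 : {z | z ∈ K2 ∧ ¬ (G.Adj x z ↔ G.Adj a z)} =
                ((K2.filter (fun z => ¬ (G.Adj x z ↔ G.Adj a z)) : Finset V) : Set V) := by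
              ext z
              simp
            rw [h2, Set.ncard_coe_finset]
            have h3 : ((univ : Finset V).filter (fun z => G.Adj x z ∧ G.Adj w z)) ⊆
                ((univ : Finset V).filter (fun z => G.Adj a z ∧ G.Adj w z)) ∪
                ((nb G x \ K') ∪ K2.filter (fun z => ¬ (G.Adj x z ↔ G.Adj a z))) := by
              intro z hz
              obtain ⟨_, hxz, hwz⟩ := Finset.mem_filter.1 hz
              rw [Finset.mem_union, Finset.mem_union, Finset.mem_filter, Finset.mem_sdiff,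
                mem_nb, Finset.mem_filter]
              by_cases haz : G.Adj a z
              · exact Or.inl ⟨Finset.mem_univ _, haz, hwz⟩
              · right
                by_cases hzK : z ∈ K'
                · right
                  exact ⟨Finset.mem_insert_of_mem hzK, fun h => haz (h.1 hxz)⟩
                · exact Or.inl ⟨hxz, hzK⟩
            unfold cd
            refine (Finset.card_le_card h3).trans ((Finset.card_union_le _ _).trans ?_)
            exact Nat.add_le_add_left (Finset.card_union_le _ _) _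
          have h1' : (cd G x w : ℝ) ≤ cd G a w + (((nb G x \ K').card : ℝ) +
              (Set.ncard {z | z ∈ K2 ∧ ¬ (G.Adj x z ↔ G.Adj a z)} : ℝ)) := by exact_mod_cast h1
          have h2 := hK' x hx
          have h3 : ε' * d = δ * d / 8 := by
            rw [hε']
            ring
          have h4 : 0 < δ * d := by positivity
          linarith
      -- the helpers are heavy with `a`
      have hZa : ∀ z ∈ Z, δ / 2 * d ≤ (cd G a z : ℝ) := by
        intro z hz
        have h1 := (hZ z hz).1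
        have h2 := hcode z
        linarith
      set W := nb G y \ U.biUnion (fun a => Far2 G d δ ρ a) with hW
      have hWfew : ∀ w ∈ W, (Z.card : ℝ) / 2 ≤
          ((Z.filter (fun z => (cd G z w : ℝ) < δ * d)).card : ℝ) := by
        intro w hw
        have hw2 : w ∉ Far2 G d δ ρ a := fun h =>
          (Finset.mem_sdiff.1 hw).2 (Finset.mem_biUnion.2 ⟨a, haU, h⟩)
        have h1 : (((univ : Finset V).filter (fun z => δ / 2 * d ≤ (cd G a z : ℝ) ∧
            δ * d ≤ (cd G z w : ℝ))).card : ℝ) < ρ / 2 * d := by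
          by_contra hcon
          exact hw2 (Finset.mem_filter.2 ⟨Finset.mem_univ _, not_lt.1 hcon⟩)
        have h2 : (Z.filter (fun z => ¬ (cd G z w : ℝ) < δ * d)).card ≤
            ((univ : Finset V).filter (fun z => δ / 2 * d ≤ (cd G a z : ℝ) ∧
            δ * d ≤ (cd G z w : ℝ))).card := by
          apply Finset.card_le_card
          intro z hz
          obtain ⟨hz1, hz2⟩ := Finset.mem_filter.1 hz
          exact Finset.mem_filter.2 ⟨Finset.mem_univ _, hZa z hz1, not_lt.1 hz2⟩
        have h2' : ((Z.filter (fun z => ¬ (cd G z w : ℝ) < δ * d)).card : ℝ) ≤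
            (((univ : Finset V).filter (fun z => δ / 2 * d ≤ (cd G a z : ℝ) ∧
            δ * d ≤ (cd G z w : ℝ))).card : ℝ) := by exact_mod_cast h2
        have h3 := Finset.card_filter_add_card_filter_not (s := Z)
          (fun z => (cd G z w : ℝ) < δ * d)
        have h3' : ((Z.filter (fun z => (cd G z w : ℝ) < δ * d)).card : ℝ) +
            ((Z.filter (fun z => ¬ (cd G z w : ℝ) < δ * d)).card : ℝ) = Z.card := by
          exact_mod_cast h3
        linarith
      have h1 := Finset.sum_card_bipartiteAbove_eq_sum_card_bipartiteBelow (s := Z)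
        (t := W) (fun z w => (cd G z w : ℝ) < δ * d)
      unfold Finset.bipartiteAbove Finset.bipartiteBelow at h1
      have h2 : ((Z.card : ℝ) / 2) * (W.card : ℝ) ≤ (Z.card : ℝ) * (ε / 2 * d) := by
        calc ((Z.card : ℝ) / 2) * (W.card : ℝ) = ∑ w ∈ W, (Z.card : ℝ) / 2 := by
              rw [Finset.sum_const, nsmul_eq_mul, mul_comm]
          _ ≤ ∑ w ∈ W, ((Z.filter (fun z => (cd G z w : ℝ) < δ * d)).card : ℝ) :=
              Finset.sum_le_sum hWfew
          _ = ∑ z ∈ Z, ((W.filter (fun w => (cd G z w : ℝ) < δ * d)).card : ℝ) := by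
              exact_mod_cast h1.symm
          _ ≤ ∑ z ∈ Z, ε / 2 * d := by
              apply Finset.sum_le_sum
              intro z hz
              refine le_trans ?_ (hZ z hz).2
              exact_mod_cast Finset.card_le_card
                (Finset.filter_subset_filter _ Finset.sdiff_subset)
          _ = (Z.card : ℝ) * (ε / 2 * d) := by rw [Finset.sum_const, nsmul_eq_mul]
      have hZ0 : 0 < (Z.card : ℝ) := lt_of_lt_of_le (by positivity) hZc
      have h3 : (Z.card : ℝ) * (W.card : ℝ) ≤ (Z.card : ℝ) * (ε * d) := by linarith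
      exact le_of_mul_le_mul_left h3 hZ0

open Classical in
/-- **The colouring.** -/
theorem colour' (N : ℕ) (δf D0 : ℝ → ℝ) (hδf : ∀ ε, 0 < ε → 0 < δf ε) (ρ : ℝ) (hρ : 0 < ρ)
    (θ : ℝ) (hθ : 0 < θ)
    (hθ1 : θ ≤ 1) :
    ∃ C : ℕ, ∃ d1 : ℝ, ∀ (V : Type) [Fintype V]
      (G : SimpleGraph V) (d : ℝ), d1 ≤ d → 1 ≤ d → Reg G d →
      (∀ ε, 0 < ε → D0 ε ≤ d → Helped G d ε (δf ε) ρ) →
      (∀ X : Finset V, Pool.Agent.W259.GS.Sh G X Set.univ → X.card < N) →
      (∀ v v', G.Adj v v' → (cd G v v' : ℝ) ≤ (1 - θ) * d) →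
      G.Colorable C := by
  set η : ℝ := θ / 2 with hη
  have hη0 : 0 < η := by positivity
  obtain ⟨C, hC0, d1, hgr⟩ := growth' N δf D0 hδf ρ hρ 5 (η / 4) (by positivity)
  obtain ⟨M, hM⟩ := packing_unif N (3 / 4 * η / (C + 1)) (by positivity)
  refine ⟨M + 1, d1, ?_⟩
  intro V _ G d hd1 hd hreg hheavy hsh hnear
  have hd0 : 0 < d := by linarith
  obtain ⟨Z, hZX, hZfar, hZnet⟩ := exists_net
    ((univ : Finset V).filter (fun v => 0 < (nb G v).card))
    (fun v z => (cd G v z : ℝ) ≤ (1 - η) * d) (fun u v huv => by rw [cd_comm]; exact huv)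
  have hcen : ∀ v, ∃ c, 0 < (nb G v).card → c ∈ Z ∧ (1 - η) * d < (cd G v c : ℝ) := by
    intro v
    by_cases hv : 0 < (nb G v).card
    · obtain ⟨a, haZ, ha⟩ := hZnet v (Finset.mem_filter.2 ⟨Finset.mem_univ _, hv⟩)
      refine ⟨a, fun _ => ⟨haZ, ?_⟩⟩
      rcases ha with ha | ha
      · rw [← ha, cd_self]
        have h1 : ((nb G v).card : ℝ) = d := by
          rcases hreg v with h | h
          · exact h
          · omega
        rw [h1]
        nlinarith
      · push Not at ha
        exact ha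
    · exact ⟨v, fun h => absurd h hv⟩
  choose c hc using hcen
  -- the graph of the regions
  set Q : SimpleGraph V :=
    { Adj := fun z z' => z ≠ z' ∧ z ∈ Z ∧ z' ∈ Z ∧ Rch G 5 z z'
      symm := ⟨fun z z' h => ⟨h.1.symm, h.2.2.1, h.2.1, h.2.2.2.symm⟩⟩
      loopless := ⟨fun z h => h.1 rfl⟩ } with hQ
  have hQadj : ∀ z z', Q.Adj z z' ↔ (z ≠ z' ∧ z ∈ Z ∧ z' ∈ Z ∧ Rch G 5 z z') :=
    fun _ _ => Iff.rfl
  have hQdeg : ∀ z, (nb Q z).card ≤ M := by
    intro z
    obtain ⟨K, hKc, hK⟩ := hgr V G d hd1 hd hreg hheavy hsh z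
    set K2 := insert z K with hK2
    have hK2c : (K2.card : ℝ) ≤ (C + 1) * d := by
      have h1 : K2.card ≤ K.card + 1 := Finset.card_insert_le _ _
      have h2 : (K2.card : ℝ) ≤ K.card + 1 := by exact_mod_cast h1
      linarith
    refine (hM V G K2 (Finset.insert_nonempty _ _) hsh (nb Q z) ?_).le
    intro a ha b hb hab
    rw [mem_nb, hQadj] at ha hb
    have hfar := hZfar a ha.2.2.1 b hb.2.2.1 hab
    have hKa := hK a ha.2.2.2
    have h1 : (nb G a).card ≤ cd G a b + ((nb G a \ K).card +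
        Set.ncard {w | w ∈ K2 ∧ ¬ (G.Adj a w ↔ G.Adj b w)}) := by
      have h2 : {w | w ∈ K2 ∧ ¬ (G.Adj a w ↔ G.Adj b w)} =
          ((K2.filter (fun w => ¬ (G.Adj a w ↔ G.Adj b w)) : Finset V) : Set V) := by
        ext w
        simp
      rw [h2, Set.ncard_coe_finset]
      have h3 : nb G a ⊆
          ((univ : Finset V).filter (fun w => G.Adj a w ∧ G.Adj b w)) ∪
          ((nb G a \ K) ∪ K2.filter (fun w => ¬ (G.Adj a w ↔ G.Adj b w))) := by
        intro w hw
        have hw' := (mem_nb G a w).1 hw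
        rw [Finset.mem_union, Finset.mem_union, Finset.mem_filter, Finset.mem_sdiff,
          Finset.mem_filter]
        by_cases hbw : G.Adj b w
        · exact Or.inl ⟨Finset.mem_univ _, hw', hbw⟩
        · right
          by_cases hwK : w ∈ K
          · right
            exact ⟨Finset.mem_insert_of_mem hwK, fun h => hbw (h.1 hw')⟩
          · exact Or.inl ⟨hw, hwK⟩
      unfold cd
      refine (Finset.card_le_card h3).trans ((Finset.card_union_le _ _).trans ?_)
      exact Nat.add_le_add_left (Finset.card_union_le _ _) _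
    have h1' : ((nb G a).card : ℝ) ≤ cd G a b + (((nb G a \ K).card : ℝ) +
        (Set.ncard {w | w ∈ K2 ∧ ¬ (G.Adj a w ↔ G.Adj b w)} : ℝ)) := by exact_mod_cast h1
    have h2 : ((nb G a).card : ℝ) = d := by
      have h3 := (Finset.mem_filter.1 (hZX ha.2.2.1)).2
      rcases hreg a with h | h
      · exact h
      · omega
    have h3 : 3 / 4 * η / (C + 1) * (K2.card : ℝ) ≤ 3 / 4 * η * d := by
      calc 3 / 4 * η / (C + 1) * (K2.card : ℝ) ≤ 3 / 4 * η / (C + 1) * ((C + 1) * d) :=
            mul_le_mul_of_nonneg_left hK2c (by positivity)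
        _ = 3 / 4 * η * d := by field_simp
    linarith
  obtain ⟨col⟩ := colorable_of_deg Q M hQdeg
  refine ⟨SimpleGraph.Coloring.mk (fun v => col (c v)) ?_⟩
  intro v v' hvv' hcol
  have hv : 0 < (nb G v).card := Finset.card_pos.2 ⟨v', (mem_nb G v v').2 hvv'⟩
  have hv' : 0 < (nb G v').card := Finset.card_pos.2 ⟨v, (mem_nb G v' v).2 hvv'.symm⟩
  obtain ⟨hcv1, hcv2⟩ := hc v hv
  obtain ⟨hcv'1, hcv'2⟩ := hc v' hv'
  have hcom : ∀ x z, (1 - η) * d < (cd G x z : ℝ) → ∃ s, G.Adj x s ∧ G.Adj z s := by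
    intro x z hxz
    have h1 : 0 < cd G x z := by
      have : (0 : ℝ) < (cd G x z : ℝ) := by
        refine lt_of_le_of_lt ?_ hxz
        apply mul_nonneg _ hd0.le
        linarith
      exact_mod_cast this
    unfold cd at h1
    obtain ⟨s, hs⟩ := Finset.card_pos.1 h1
    exact ⟨s, (Finset.mem_filter.1 hs).2⟩
  have hne : c v ≠ c v' := by
    intro heq
    rw [← heq] at hcv'2
    have h1 : (nb G (c v)).card + cd G v v' ≥ cd G v (c v) + cd G v' (c v) := by
      unfold cd nb
      have h2 := Finset.card_union_add_card_inter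
        ((univ : Finset V).filter (fun w => G.Adj v w ∧ G.Adj (c v) w))
        ((univ : Finset V).filter (fun w => G.Adj v' w ∧ G.Adj (c v) w))
      rw [← h2]
      apply Nat.add_le_add
      · apply Finset.card_le_card
        intro w hw
        rw [Finset.mem_union, Finset.mem_filter, Finset.mem_filter] at hw
        rw [Finset.mem_filter]
        rcases hw with hw | hw
        · exact ⟨Finset.mem_univ _, hw.2.2⟩
        · exact ⟨Finset.mem_univ _, hw.2.2⟩
      · apply Finset.card_le_card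
        intro w hw
        rw [Finset.mem_inter, Finset.mem_filter, Finset.mem_filter] at hw
        rw [Finset.mem_filter]
        exact ⟨Finset.mem_univ _, hw.1.2.1, hw.2.2.1⟩
    have h1' : ((nb G (c v)).card : ℝ) + cd G v v' ≥ cd G v (c v) + cd G v' (c v) := by
      exact_mod_cast h1
    have h2 := hreg.le hd0.le (c v)
    have h3 := hnear v v' hvv'
    have h4 : 2 * ((1 - η) * d) = d + (1 - θ) * d := by
      rw [hη]
      ring
    linarith
  have hQ' : Q.Adj (c v) (c v') := by
    rw [hQadj]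
    refine ⟨hne, hcv1, hcv'1, ?_⟩
    obtain ⟨s, hs1, hs2⟩ := hcom v (c v) hcv2
    obtain ⟨s', hs'1, hs'2⟩ := hcom v' (c v') hcv'2
    refine ⟨SimpleGraph.Walk.cons hs2 (SimpleGraph.Walk.cons hs1.symm
      (SimpleGraph.Walk.cons hvv' (SimpleGraph.Walk.cons hs'1
        (SimpleGraph.Walk.cons hs'2.symm SimpleGraph.Walk.nil)))), ?_⟩
    simp
  exact col.valid hQ' hcol


end Pool.Agent.Q112.GS
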