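import Pool.Agent.Y394.AT.Main
import Pool.Agent.Q112.GS.Growth

set_option autoImplicit false

/-!
# Gyárfás–Sumner for unions of large classes of homogeneous coherent configurations
-/

namespace Pool.Agent.Q112.GS

open Finset Pool.Agent.Y394.AT

/-- The classes `cl x y` form a homogeneous coherent configuration. -/
structure Coh {V I : Type} (cl : V → V → I) : Prop where
  symm : ∀ x y x' y', cl x y = cl x' y' → cl y x = cl y' x'
  count : ∀ x y x' y', cl x y = cl x' y' → ∀ i j,
    {z | cl x z = i ∧ cl z y = j}.ncard = {z | cl x' z = i ∧ cl z y' = j}.ncard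
  homog : ∀ x y, cl x x = cl y y

section coh

variable {V I : Type} [Fintype V] {cl : V → V → I}

open Classical in
/-- the ends of the arcs from `z` in the class `i` -/
noncomputable def outS (cl : V → V → I) (i : I) (z : V) : Finset V :=
  (univ : Finset V).filter (fun x => cl z x = i)

open Classical in
/-- the starts of the arcs to `x` in the class `i` -/
noncomputable def innS (cl : V → V → I) (i : I) (x : V) : Finset V :=
  (univ : Finset V).filter (fun z => cl z x = i)

theorem mem_outS (i : I) (z x : V) : x ∈ outS cl i z ↔ cl z x = i := by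
  unfold outS
  simp

theorem mem_innS (i : I) (x z : V) : z ∈ innS cl i x ↔ cl z x = i := by
  unfold innS
  simp

theorem card_pq (h : Coh cl) (P Q : I → Prop) (x y x' y' : V) (hxy : cl x y = cl x' y')
    (A B : V → Prop) [DecidablePred A] [DecidablePred B]
    (hA : ∀ z, A z ↔ P (cl x z) ∧ Q (cl z y)) (hB : ∀ z, B z ↔ P (cl x' z) ∧ Q (cl z y')) :
    ((univ : Finset V).filter A).card = ((univ : Finset V).filter B).card := by
  classical
  set S : Finset I := (univ : Finset (V × V)).image (fun p => cl p.1 p.2) with hS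
  have hmem : ∀ a b, cl a b ∈ S := fun a b => Finset.mem_image.2 ⟨(a, b), Finset.mem_univ _, rfl⟩
  have key : ∀ (x y : V) (A : V → Prop) [DecidablePred A],
      (∀ z, A z ↔ P (cl x z) ∧ Q (cl z y)) →
      ((univ : Finset V).filter A).card = ∑ p ∈ S ×ˢ S, if P p.1 ∧ Q p.2 then
        {z | cl x z = p.1 ∧ cl z y = p.2}.ncard else 0 := by
    intro x y A _ hA
    rw [Finset.card_eq_sum_card_fiberwise (f := fun z => (cl x z, cl z y)) (t := S ×ˢ S)
      (fun z _ => Finset.mem_coe.2 (Finset.mem_product.2 ⟨hmem _ _, hmem _ _⟩))]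
    apply Finset.sum_congr rfl
    intro p _
    by_cases hp : P p.1 ∧ Q p.2
    · rw [if_pos hp]
      have : {z | cl x z = p.1 ∧ cl z y = p.2} =
          ((((univ : Finset V).filter A).filter (fun z => (cl x z, cl z y) = p) : Finset V) :
            Set V) := by
        ext z
        rw [Finset.mem_coe, Finset.mem_filter, Finset.mem_filter, Prod.ext_iff]
        simp only [Finset.mem_univ, true_and, Set.mem_ofPred_eq]
        constructor
        · rintro ⟨h1, h2⟩
          exact ⟨(hA z).2 (by rw [h1, h2]; exact hp), h1, h2⟩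
        · rintro ⟨_, h1, h2⟩
          exact ⟨h1, h2⟩
      rw [this, Set.ncard_coe_finset]
    · rw [if_neg hp, Finset.card_eq_zero, Finset.filter_eq_empty_iff]
      intro z hz heq
      apply hp
      have h1 := (hA z).1 (Finset.mem_filter.1 hz).2
      rw [Prod.ext_iff] at heq
      simp only at heq
      rw [heq.1, heq.2] at h1
      exact h1
  rw [key x y A hA, key x' y' B hB]
  apply Finset.sum_congr rfl
  intro p _
  by_cases hp : P p.1 ∧ Q p.2
  · rw [if_pos hp, if_pos hp]
    exact h.count x y x' y' hxy p.1 p.2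
  · rw [if_neg hp, if_neg hp]

theorem card_out (h : Coh cl) (i : I) (z z' : V) :
    (outS cl i z).card = (outS cl i z').card := by
  classical
  unfold outS
  exact card_pq h (fun j => j = i) (fun _ => True) z z z' z' (h.homog z z') _ _
    (fun w => by simp) (fun w => by simp)

theorem card_inn (h : Coh cl) (i : I) (z z' : V) :
    (innS cl i z).card = (innS cl i z').card := by
  classical
  unfold innS
  exact card_pq h (fun _ => True) (fun j => j = i) z z z' z' (h.homog z z') _ _
    (fun w => by simp) (fun w => by simp)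

theorem card_out_eq_inn (h : Coh cl) (i : I) (z x : V) :
    (outS cl i z).card = (innS cl i x).card := by
  classical
  have h1 := Finset.sum_card_bipartiteAbove_eq_sum_card_bipartiteBelow (s := (univ : Finset V))
    (t := (univ : Finset V)) (fun z x => cl z x = i)
  unfold Finset.bipartiteAbove Finset.bipartiteBelow at h1
  have h2 : ∀ z' ∈ (univ : Finset V), ((univ : Finset V).filter
      (fun x => cl z' x = i)).card = (outS cl i z).card := by
    intro z' _
    rw [card_out h i z z']
    unfold outS
    congr
  have h3 : ∀ x' ∈ (univ : Finset V), ((univ : Finset V).filter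
      (fun z => cl z x' = i)).card = (innS cl i x).card := by
    intro x' _
    rw [card_inn h i x x']
    unfold innS
    congr
  rw [Finset.sum_congr rfl h2, Finset.sum_congr rfl h3, Finset.sum_const, Finset.sum_const,
    smul_eq_mul, smul_eq_mul] at h1
  exact Nat.eq_of_mul_eq_mul_left (Finset.card_pos.2 ⟨z, Finset.mem_univ z⟩) h1

variable {G : SimpleGraph V}

/-- the class consists of arcs of `G` -/
def AdjCl (cl : V → V → I) (G : SimpleGraph V) (i : I) : Prop := ∃ x y, cl x y = i ∧ G.Adj x y

theorem adj_iff (hG : ∀ x y x' y', cl x y = cl x' y' → G.Adj x y → G.Adj x' y') (x y : V) :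
    AdjCl cl G (cl x y) ↔ G.Adj x y := by
  constructor
  · rintro ⟨a, b, h1, h2⟩
    exact hG a b x y h1 h2
  · intro h
    exact ⟨x, y, rfl, h⟩

theorem cd_cl (h : Coh cl) (hG : ∀ x y x' y', cl x y = cl x' y' → G.Adj x y → G.Adj x' y')
    (x y x' y' : V) (hxy : cl x y = cl x' y') : cd G x y = cd G x' y' := by
  classical
  unfold cd
  refine card_pq h (AdjCl cl G) (AdjCl cl G) x y x' y' hxy _ _ ?_ ?_
  · intro w
    rw [adj_iff hG, adj_iff hG, G.adj_comm w y]
  · intro w
    rw [adj_iff hG, adj_iff hG, G.adj_comm w y']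

theorem nb_cl (h : Coh cl) (hG : ∀ x y x' y', cl x y = cl x' y' → G.Adj x y → G.Adj x' y')
    (x x' : V) : (nb G x).card = (nb G x').card := by
  classical
  unfold nb
  refine card_pq h (AdjCl cl G) (fun _ => True) x x x' x' (h.homog x x') _ _ ?_ ?_
  · intro w
    rw [adj_iff hG]
    simp
  · intro w
    rw [adj_iff hG]
    simp

/-- the class consists of pairs of codegree less than `t` -/
def CdCl (cl : V → V → I) (G : SimpleGraph V) (t : ℝ) (i : I) : Prop :=
  ∃ x y, cl x y = i ∧ (cd G x y : ℝ) < t

theorem cd_iff (h : Coh cl) (hG : ∀ x y x' y', cl x y = cl x' y' → G.Adj x y → G.Adj x' y')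
    (t : ℝ) (x y : V) : CdCl cl G t (cl x y) ↔ (cd G x y : ℝ) < t := by
  constructor
  · rintro ⟨a, b, h1, h2⟩
    rwa [cd_cl h hG a b x y h1] at h2
  · intro h
    exact ⟨x, y, rfl, h⟩

end coh

open Classical in
theorem coherent_color (m : ℕ) (F : SimpleGraph (Fin m)) (hF : F.IsAcyclic) (k : ℕ)
    (hk : 1 ≤ k) (la : ℝ) (hla : 0 < la) (hla1 : la ≤ 1) :
    ∃ C : ℕ, ∀ (V I : Type) [Fintype V] (cl : V → V → I) (G : SimpleGraph V), Coh cl →
      (∀ x y x' y', cl x y = cl x' y' → G.Adj x y → G.Adj x' y') →
      (∀ a b, G.Adj a b → la * ((nb G a).card : ℝ) ≤ ((outS cl (cl a b) a).card : ℝ)) →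
      G.CliqueFree (k + 1) → IsEmpty (F ↪g G) → G.Colorable C := by
  obtain ⟨N0, hN0⟩ := Pool.Agent.W259.GS.noShatter F hF.colorable_two (k + 1)
  obtain ⟨T, hT, ⟨ι⟩⟩ := Pool.Agent.H367R3.forest_in_tree F hF
  have hkR : (1 : ℝ) ≤ k := by exact_mod_cast hk
  have hk0 : (0 : ℝ) < k := by linarith
  -- helpers
  have hE : ∀ ε : ℝ, ∃ δ : ℝ, 0 < δ ∧ ∃ d0 : ℝ, 0 < ε → ∀ (V I : Type) [Fintype V]
      (cl : V → V → I) (G : SimpleGraph V) (d : ℝ), d0 ≤ d → 1 ≤ d → Reg G d → Coh cl →
      (∀ x y x' y', cl x y = cl x' y' → G.Adj x y → G.Adj x' y') →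
      (∀ a b, G.Adj a b → la * ((nb G a).card : ℝ) ≤ ((outS cl (cl a b) a).card : ℝ)) →
      G.CliqueFree (k + 1) → IsEmpty (F ↪g G) → Helped G d ε δ (la / 2) := by
    intro ε
    by_cases hε : 0 < ε
    swap
    · exact ⟨1, one_pos, 0, fun h => absurd h hε⟩
    set ε1 : ℝ := min ε (la / 2) with hε1
    have hε10 : 0 < ε1 := lt_min hε (by positivity)
    have hε1a : ε1 ≤ ε := min_le_left _ _
    have hε1b : ε1 ≤ la / 2 := min_le_right _ _
    set lam : ℝ := min 1 (ε1 / 2) with hlam
    have hlam0 : 0 < lam := lt_min one_pos (by positivity)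
    have hlam1 : lam ≤ 1 := min_le_left _ _
    have hlamε : lam ≤ ε1 / 2 := min_le_right _ _
    obtain ⟨δe, hδe, d0, hemb⟩ := embed_tree (m + 1) k (by omega) hk lam hlam0 hlam1
    set δ' : ℝ := la * (ε1 / 2) with hδ'
    have hδ'0 : 0 < δ' := by positivity
    set δ : ℝ := min δe δ' with hδ
    have hδ0 : 0 < δ := lt_min hδe hδ'0
    have hδa : δ ≤ δe := min_le_left _ _
    have hδb : δ ≤ δ' := min_le_right _ _
    have hδ1 : δ ≤ 1 := by
      refine hδb.trans ?_
      rw [hδ']
      nlinarith
    refine ⟨δ, hδ0, d0, fun _ => ?_⟩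
    intro V I _ cl G d hd hd1 hreg hcoh hG hval hfree hemp
    have hd0 : 0 < d := by linarith
    -- an arc with few light continuations
    by_cases hedge : ∃ a b, G.Adj a b
    swap
    · intro x y hxy
      exact absurd ⟨x, y, hxy⟩ hedge
    obtain ⟨z0, x0, hzx0, hfew⟩ : ∃ z0 x0, G.Adj z0 x0 ∧
        ((lc G ⌈δe * d⌉₊ z0 x0).card : ℝ) < lam * d := by
      by_contra hcon
      push Not at hcon
      have hsys : LightSystem G d δe lam G.Adj (fun z x => lc G ⌈δe * d⌉₊ z x) :=
        { adj := fun z x h => h
          deg := fun v => by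
            have := hreg.le hd0.le v
            unfold nb at this
            exact this
          cont := by
            intro z x hzx w hw
            unfold lc at hw
            obtain ⟨h1, h2, h3, _⟩ := Finset.mem_filter.1 hw
            exact ⟨(mem_nb G x w).1 h1, h2, h3⟩
          large := fun z x hzx => hcon z x hzx
          light := by
            intro z y
            by_cases hex : ∃ x, G.Adj z x ∧ y ∈ lc G ⌈δe * d⌉₊ z x
            · obtain ⟨x, hzx, hy⟩ := hex
              unfold lc at hy
              obtain ⟨_, _, _, h4⟩ := Finset.mem_filter.1 hy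
              rw [Nat.lt_ceil] at h4
              refine le_trans ?_ h4.le
              have : ((univ : Finset V).filter
                  (fun x => G.Adj z x ∧ y ∈ lc G ⌈δe * d⌉₊ z x)).card ≤ cd G z y := by
                unfold cd
                apply Finset.card_le_card
                intro x' hx'
                obtain ⟨_, h5, h6⟩ := Finset.mem_filter.1 hx'
                unfold lc at h6
                have h7 := (mem_nb G x' y).1 (Finset.mem_filter.1 h6).1
                exact Finset.mem_filter.2 ⟨Finset.mem_univ _, h5, h7.symm⟩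
              exact_mod_cast this
            · push Not at hex
              have : (univ : Finset V).filter
                  (fun x => G.Adj z x ∧ y ∈ lc G ⌈δe * d⌉₊ z x) = ∅ := by
                rw [Finset.filter_eq_empty_iff]
                intro x _ h
                exact hex x h.1 h.2
              rw [this]
              simp only [Finset.card_empty, Nat.cast_zero]
              positivity }
      obtain ⟨a, b, hab⟩ := hedge
      obtain ⟨f, hf1, hf2⟩ := hemb V G d G.Adj _ hd hsys ⟨a, b, hab⟩ hfree m (by omega)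
        (Fin (m + 1)) T hT (by simp)
      let g : T ↪g G := { toFun := f, inj' := hf1, map_rel_iff' := fun {a b} => (hf2 a b).symm }
      exact hemp.false (ι.trans g)
    have hval0 : la * d ≤ ((outS cl (cl z0 x0) z0).card : ℝ) := by
      have := hval z0 x0 hzx0
      rwa [hreg.eq hzx0] at this
    -- few adjacent continuations of small codegree
    set n0 : ℕ := ((nb G x0).filter (fun w => G.Adj z0 w ∧ (cd G z0 w : ℝ) < δ' * d)).card with hn0
    have hn0le : (n0 : ℝ) ≤ ε1 / 2 * d := by
      set X := outS cl (cl z0 x0) z0 with hX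
      set W := (nb G z0).filter (fun w => (cd G z0 w : ℝ) < δ' * d) with hW
      have h1 := Finset.sum_card_bipartiteAbove_eq_sum_card_bipartiteBelow (s := X)
        (t := W) (fun x w => G.Adj x w)
      unfold Finset.bipartiteAbove Finset.bipartiteBelow at h1
      have h2 : ∀ x ∈ X, (W.filter (fun w => G.Adj x w)).card = n0 := by
        intro x hx
        have hcx : cl z0 x0 = cl z0 x := ((mem_outS _ z0 x).1 hx).symm
        rw [hn0]
        symm
        have e1 : (nb G x0).filter (fun w => G.Adj z0 w ∧ (cd G z0 w : ℝ) < δ' * d) =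
            (univ : Finset V).filter
              (fun w => G.Adj x0 w ∧ G.Adj z0 w ∧ (cd G z0 w : ℝ) < δ' * d) := by
          ext w
          rw [Finset.mem_filter, mem_nb, Finset.mem_filter]
          simp
        have e2 : W.filter (fun w => G.Adj x w) = (univ : Finset V).filter
              (fun w => G.Adj x w ∧ G.Adj z0 w ∧ (cd G z0 w : ℝ) < δ' * d) := by
          ext w
          rw [hW, Finset.mem_filter, Finset.mem_filter, mem_nb, Finset.mem_filter]
          simp only [Finset.mem_univ, true_and]
          tauto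
        rw [e1, e2]
        refine card_pq hcoh (fun i => AdjCl cl G i ∧ CdCl cl G (δ' * d) i) (AdjCl cl G)
          z0 x0 z0 x hcx _ _ ?_ ?_
        · intro w
          rw [adj_iff hG, cd_iff hcoh hG, adj_iff hG, G.adj_comm w x0]
          tauto
        · intro w
          rw [adj_iff hG, cd_iff hcoh hG, adj_iff hG, G.adj_comm w x]
          tauto
      have h3 : ∀ w ∈ W, ((X.filter (fun x => G.Adj x w)).card : ℝ) ≤ δ' * d := by
        intro w hw
        refine le_trans ?_ (Finset.mem_filter.1 hw).2.le
        have : (X.filter (fun x => G.Adj x w)).card ≤ cd G z0 w := by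
          unfold cd
          apply Finset.card_le_card
          intro x hx
          obtain ⟨hx1, hx2⟩ := Finset.mem_filter.1 hx
          have hcx : cl z0 x0 = cl z0 x := ((mem_outS _ z0 x).1 hx1).symm
          exact Finset.mem_filter.2 ⟨Finset.mem_univ _, hG z0 x0 z0 x hcx hzx0, hx2.symm⟩
        exact_mod_cast this
      have hWc : (W.card : ℝ) ≤ d := by
        refine le_trans ?_ (hreg.le hd0.le z0)
        exact_mod_cast Finset.card_le_card (Finset.filter_subset _ _)
      have h4 : (X.card : ℝ) * n0 ≤ d * (δ' * d) := by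
        calc (X.card : ℝ) * n0 = ∑ x ∈ X, ((W.filter (fun w => G.Adj x w)).card : ℝ) := by
              rw [Finset.sum_congr rfl (fun x hx => by rw [h2 x hx]), Finset.sum_const,
                nsmul_eq_mul]
          _ = ∑ w ∈ W, ((X.filter (fun x => G.Adj x w)).card : ℝ) := by exact_mod_cast h1
          _ ≤ ∑ w ∈ W, δ' * d := Finset.sum_le_sum h3
          _ = (W.card : ℝ) * (δ' * d) := by rw [Finset.sum_const, nsmul_eq_mul]
          _ ≤ d * (δ' * d) := mul_le_mul_of_nonneg_right hWc (by positivity)
      have h5 : (la * d) * n0 ≤ (la * d) * (ε1 / 2 * d) := by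
        calc (la * d) * n0 ≤ (X.card : ℝ) * n0 :=
              mul_le_mul_of_nonneg_right hval0 (Nat.cast_nonneg _)
          _ ≤ d * (δ' * d) := h4
          _ = (la * d) * (ε1 / 2 * d) := by rw [hδ']; ring
      exact le_of_mul_le_mul_left h5 (by positivity)
    -- almost all continuations of the arcs in the class are heavy
    have hB0 : (((nb G x0).filter (fun w => (cd G z0 w : ℝ) < δ * d)).card : ℝ) ≤ ε1 * d := by
      have hsub : (nb G x0).filter (fun w => (cd G z0 w : ℝ) < δ * d) ⊆
          lc G ⌈δe * d⌉₊ z0 x0 ∪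
            (nb G x0).filter (fun w => G.Adj z0 w ∧ (cd G z0 w : ℝ) < δ' * d) := by
        intro w hw
        obtain ⟨hw1, hw2⟩ := Finset.mem_filter.1 hw
        rw [Finset.mem_union]
        by_cases hzw : G.Adj z0 w
        · right
          refine Finset.mem_filter.2 ⟨hw1, hzw, lt_of_lt_of_le hw2 ?_⟩
          exact mul_le_mul_of_nonneg_right hδb hd0.le
        · left
          unfold lc
          refine Finset.mem_filter.2 ⟨hw1, ?_, hzw, ?_⟩
          · rintro rfl
            rw [cd_self, hreg.eq hzx0] at hw2
            have h3 : δ * d ≤ 1 * d := mul_le_mul_of_nonneg_right hδ1 hd0.le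
            linarith
          · rw [Nat.lt_ceil]
            refine lt_of_lt_of_le hw2 ?_
            exact mul_le_mul_of_nonneg_right hδa hd0.le
      have h2 : (((nb G x0).filter (fun w => (cd G z0 w : ℝ) < δ * d)).card : ℝ) ≤
          (lc G ⌈δe * d⌉₊ z0 x0).card + (n0 : ℝ) := by
        exact_mod_cast (Finset.card_le_card hsub).trans (Finset.card_union_le _ _)
      have h3 : lam * d ≤ ε1 / 2 * d := mul_le_mul_of_nonneg_right hlamε hd0.le
      linarith
    have hB : ∀ z x, cl z x = cl z0 x0 →
        (((nb G x).filter (fun w => (cd G z w : ℝ) < δ * d)).card : ℝ) ≤ ε1 * d := by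
      intro z x hzx
      refine le_trans (le_of_eq ?_) hB0
      congr 1
      have e1 : ∀ z y : V, (nb G y).filter (fun w => (cd G z w : ℝ) < δ * d) =
          (univ : Finset V).filter (fun w => G.Adj y w ∧ (cd G z w : ℝ) < δ * d) := by
        intro z y
        ext w
        rw [Finset.mem_filter, mem_nb, Finset.mem_filter]
        simp
      rw [e1, e1]
      refine card_pq hcoh (CdCl cl G (δ * d)) (AdjCl cl G) z x z0 x0 hzx _ _ ?_ ?_
      · intro w
        rw [cd_iff hcoh hG, adj_iff hG, G.adj_comm w x]
        tauto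
      · intro w
        rw [cd_iff hcoh hG, adj_iff hG, G.adj_comm w x0]
        tauto
    -- the helpers
    intro x y hxy
    set Y := innS cl (cl z0 x0) y with hY
    set X' := innS cl (cl x y) y with hX'
    have hYc : la * d ≤ (Y.card : ℝ) := by
      rw [hY, ← card_out_eq_inn hcoh (cl z0 x0) z0 y]
      exact hval0
    have hX'c : la * d ≤ (X'.card : ℝ) := by
      rw [hX', ← card_out_eq_inn hcoh (cl x y) x y]
      have := hval x y hxy
      rwa [hreg.eq hxy] at this
    have hX'nb : ∀ x' ∈ X', x' ∈ nb G y := by
      intro x' hx'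
      have h1 : cl x y = cl x' y := ((mem_innS _ y x').1 hx').symm
      rw [mem_nb]
      exact (hG x y x' y h1 hxy).symm
    set b : ℕ := (Y.filter (fun z => (cd G x z : ℝ) < δ * d)).card with hb
    have hbX : ∀ x' ∈ X', (Y.filter (fun z => (cd G x' z : ℝ) < δ * d)).card = b := by
      intro x' hx'
      have h1 : cl x' y = cl x y := (mem_innS _ y x').1 hx'
      rw [hb]
      have e : ∀ u : V, Y.filter (fun z => (cd G u z : ℝ) < δ * d) = (univ : Finset V).filter
          (fun z => cl z y = cl z0 x0 ∧ (cd G u z : ℝ) < δ * d) := by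
        intro u
        ext z
        rw [Finset.mem_filter, hY, mem_innS, Finset.mem_filter]
        simp
      rw [e, e]
      refine card_pq hcoh (CdCl cl G (δ * d)) (fun i => i = cl z0 x0) x' y x y h1 _ _ ?_ ?_
      · intro z
        rw [cd_iff hcoh hG]
        tauto
      · intro z
        rw [cd_iff hcoh hG]
        tauto
    have hble : (b : ℝ) ≤ (Y.card : ℝ) / 2 := by
      have h1 := Finset.sum_card_bipartiteAbove_eq_sum_card_bipartiteBelow (s := X')
        (t := Y) (fun x' z => (cd G x' z : ℝ) < δ * d)
      unfold Finset.bipartiteAbove Finset.bipartiteBelow at h1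
      have h3 : ∀ z ∈ Y, ((X'.filter (fun x' => (cd G x' z : ℝ) < δ * d)).card : ℝ) ≤ ε1 * d := by
        intro z hz
        refine le_trans ?_ (hB z y ((mem_innS _ y z).1 hz))
        have : (X'.filter (fun x' => (cd G x' z : ℝ) < δ * d)).card ≤
            ((nb G y).filter (fun w => (cd G z w : ℝ) < δ * d)).card := by
          apply Finset.card_le_card
          intro x' hx'
          obtain ⟨h4, h5⟩ := Finset.mem_filter.1 hx'
          rw [cd_comm] at h5
          exact Finset.mem_filter.2 ⟨hX'nb x' h4, h5⟩
        exact_mod_cast this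
      have h4 : (X'.card : ℝ) * b ≤ (Y.card : ℝ) * (ε1 * d) := by
        calc (X'.card : ℝ) * b =
              ∑ x' ∈ X', ((Y.filter (fun z => (cd G x' z : ℝ) < δ * d)).card : ℝ) := by
              rw [Finset.sum_congr rfl (fun x' hx' => by rw [hbX x' hx']), Finset.sum_const,
                nsmul_eq_mul]
          _ = ∑ z ∈ Y, ((X'.filter (fun x' => (cd G x' z : ℝ) < δ * d)).card : ℝ) := by
              exact_mod_cast h1
          _ ≤ ∑ z ∈ Y, ε1 * d := Finset.sum_le_sum h3
          _ = (Y.card : ℝ) * (ε1 * d) := by rw [Finset.sum_const, nsmul_eq_mul]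
      have h5 : (la * d) * b ≤ (la * d) * ((Y.card : ℝ) / 2) := by
        calc (la * d) * b ≤ (X'.card : ℝ) * b :=
              mul_le_mul_of_nonneg_right hX'c (Nat.cast_nonneg _)
          _ ≤ (Y.card : ℝ) * (ε1 * d) := h4
          _ ≤ (Y.card : ℝ) * (la / 2 * d) :=
              mul_le_mul_of_nonneg_left (mul_le_mul_of_nonneg_right hε1b hd0.le)
                (Nat.cast_nonneg _)
          _ = (la * d) * ((Y.card : ℝ) / 2) := by ring
      exact le_of_mul_le_mul_left h5 (by positivity)
    refine ⟨Y.filter (fun z => ¬ (cd G x z : ℝ) < δ * d), ?_, ?_⟩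
    · have h3 := Finset.card_filter_add_card_filter_not (s := Y)
        (fun z => (cd G x z : ℝ) < δ * d)
      have h3' : (b : ℝ) + ((Y.filter (fun z => ¬ (cd G x z : ℝ) < δ * d)).card : ℝ) =
          Y.card := by
        exact_mod_cast h3
      linarith
    · intro z hz
      obtain ⟨hz1, hz2⟩ := Finset.mem_filter.1 hz
      refine ⟨not_lt.1 hz2, ?_⟩
      refine le_trans (hB z y ((mem_innS _ y z).1 hz1)) ?_
      exact mul_le_mul_of_nonneg_right hε1a hd0.le
  choose δf hδf D0 hD0 using hE
  obtain ⟨C, d1, hC⟩ := colour' N0 δf D0 (fun ε _ => hδf ε) (la / 2) (by positivity) (la / k)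
    (by positivity) (by
      rw [div_le_one hk0]
      linarith)
  refine ⟨max C (⌈max d1 1⌉₊ + 1), ?_⟩
  intro V I _ cl G hcoh hG hval hfree hemp
  by_cases hedge : ∃ a b, G.Adj a b
  swap
  · push Not at hedge
    have : G.Colorable (0 + 1) := colorable_of_deg G 0 (by
      intro v
      rw [Nat.le_zero, Finset.card_eq_zero, Finset.eq_empty_iff_forall_notMem]
      intro w hw
      exact hedge v w ((mem_nb G v w).1 hw))
    exact this.mono (le_trans (by omega) (le_max_right _ _))
  obtain ⟨a0, b0, hab0⟩ := hedge
  set D : ℕ := (nb G a0).card with hD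
  have hdeg : ∀ v, (nb G v).card = D := fun v => nb_cl hcoh hG v a0
  have hreg : Reg G (D : ℝ) := fun v => Or.inl (by rw [hdeg v])
  have hD1 : 1 ≤ D := Finset.card_pos.2 ⟨b0, (mem_nb G a0 b0).2 hab0⟩
  by_cases hbig : max d1 1 ≤ (D : ℝ)
  · have hd1 : d1 ≤ (D : ℝ) := (le_max_left _ _).trans hbig
    have hD1R : (1 : ℝ) ≤ (D : ℝ) := (le_max_right _ _).trans hbig
    have hcol := hC V G D hd1 hD1R hreg
      (fun ε hε hD0' => hD0 ε hε V I cl G D hD0' hD1R hreg hcoh hG hval hfree hemp)
      (fun X hX => hN0 V G X hfree hemp hX) (by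
        intro v v' hvv'
        by_contra hcon
        push Not at hcon
        set L := outS cl (cl v v') v with hLd
        have hLg : ∀ w ∈ L, G.Adj v w ∧ cd G v w = cd G v v' := by
          intro w hw
          have h1 : cl v w = cl v v' := (mem_outS _ v w).1 hw
          exact ⟨hG v v' v w h1.symm hvv', cd_cl hcoh hG v w v v' h1⟩
        have hvL : v' ∈ L := (mem_outS _ v v').2 rfl
        have hLc : la * (D : ℝ) ≤ (L.card : ℝ) := by
          have := hval v v' hvv'
          rwa [hdeg v] at this
        have h1 := few_dense G k hfree v L (fun w hw => (hLg w hw).1) L (Finset.Subset.refl _) (by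
          intro w hw
          obtain ⟨hvw, hcdw⟩ := hLg w hw
          have h3 : (L.filter (fun y => ¬ G.Adj w y)).card + cd G v w ≤ (nb G v).card := by
            unfold cd
            rw [← Finset.card_union_of_disjoint]
            · apply Finset.card_le_card
              intro y hy
              rw [Finset.mem_union, Finset.mem_filter, Finset.mem_filter] at hy
              rcases hy with hy | hy
              · exact (mem_nb G v y).2 (hLg y hy.1).1
              · exact (mem_nb G v y).2 hy.2.1
            · rw [Finset.disjoint_left]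
              intro y hy hy'
              exact (Finset.mem_filter.1 hy).2 (Finset.mem_filter.1 hy').2.2
          have h3' : ((L.filter (fun y => ¬ G.Adj w y)).card : ℝ) + cd G v w ≤ (D : ℝ) := by
            rw [← hdeg v]
            exact_mod_cast h3
          rw [hcdw] at h3'
          have h4 : ((L.filter (fun y => ¬ G.Adj w y)).card : ℝ) ≤ la / k * D := by
            linarith
          calc (k : ℝ) * ((L.filter (fun y => ¬ G.Adj w y)).card : ℝ) ≤
                k * (la / k * D) := mul_le_mul_of_nonneg_left h4 hk0.le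
            _ = la * D := by field_simp
            _ ≤ L.card := hLc)
        have h2 : (0 : ℝ) < L.card := by exact_mod_cast Finset.card_pos.2 ⟨v', hvL⟩
        nlinarith)
    exact hcol.mono (le_max_left _ _)
  · push Not at hbig
    have hDle : D ≤ ⌈max d1 1⌉₊ := by
      have : (D : ℝ) ≤ ⌈max d1 1⌉₊ := hbig.le.trans (Nat.le_ceil _)
      exact_mod_cast this
    have : G.Colorable (⌈max d1 1⌉₊ + 1) := colorable_of_deg G _ (by
      intro v
      rw [hdeg v]
      exact hDle)
    exact this.mono (le_max_right _ _)

end Pool.Agent.Q112.GS
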