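import Pool.Agent.Q112.GS.Coh

set_option autoImplicit false

/-!
# Gyárfás–Sumner for graphs with large edge orbits
-/

namespace Pool.Agent.Q112.GS

open Finset Pool.Agent.Y394.AT

section action

variable {V Γ : Type} [Group Γ] [MulAction Γ V]

/-- the orbit of a pair -/
def pcl (Γ : Type) {V : Type} [Group Γ] [MulAction Γ V] (x y : V) : Set (V × V) :=
  MulAction.orbit Γ (x, y)

theorem pcl_eq (x y x' y' : V) :
    pcl Γ x y = pcl Γ x' y' ↔ ∃ g : Γ, g • x' = x ∧ g • y' = y := by
  unfold pcl
  rw [MulAction.orbit_eq_iff, MulAction.mem_orbit_iff]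
  constructor
  · rintro ⟨g, hg⟩
    rw [Prod.ext_iff] at hg
    exact ⟨g, hg.1, hg.2⟩
  · rintro ⟨g, h1, h2⟩
    exact ⟨g, Prod.ext h1 h2⟩

theorem pcl_smul (g : Γ) (x y : V) : pcl Γ (g • x) (g • y) = pcl Γ x y := by
  rw [pcl_eq]
  exact ⟨g, rfl, rfl⟩

theorem coh_of_transitive (hT : ∀ u v : V, ∃ g : Γ, g • u = v) : Coh (pcl Γ (V := V)) where
  symm := by
    intro x y x' y' h
    rw [pcl_eq] at h ⊢
    obtain ⟨g, h1, h2⟩ := h
    exact ⟨g, h2, h1⟩
  count := by
    intro x y x' y' h i j
    rw [pcl_eq] at h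
    obtain ⟨g, rfl, rfl⟩ := h
    have h1 : {z : V | pcl Γ (g • x') z = i ∧ pcl Γ z (g • y') = j} =
        (fun z => g • z) '' {z | pcl Γ x' z = i ∧ pcl Γ z y' = j} := by
      ext z
      simp only [Set.mem_image, Set.mem_ofPred_eq]
      constructor
      · rintro ⟨h1, h2⟩
        refine ⟨g⁻¹ • z, ⟨?_, ?_⟩, smul_inv_smul g z⟩
        · rw [← h1, ← pcl_smul g x' (g⁻¹ • z), smul_inv_smul]
        · rw [← h2, ← pcl_smul g (g⁻¹ • z) y', smul_inv_smul]
      · rintro ⟨w, ⟨h1, h2⟩, rfl⟩
        rw [pcl_smul, pcl_smul]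
        exact ⟨h1, h2⟩
    rw [h1, Set.ncard_image_of_injective _ (MulAction.injective g)]
  homog := by
    intro x y
    obtain ⟨g, hg⟩ := hT x y
    rw [eq_comm, pcl_eq]
    exact ⟨g, hg, hg⟩

end action

open Classical in
/-- the arcs of a graph -/
noncomputable def arcs {V : Type} [Fintype V] (G : SimpleGraph V) : Finset (V × V) :=
  (univ : Finset (V × V)).filter (fun p => G.Adj p.1 p.2)

open Classical in
/-- the orbit of an arc -/
noncomputable def arcOrb (Γ : Type) {V : Type} [Fintype V] [Group Γ] [MulAction Γ V] (a b : V) :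
    Finset (V × V) :=
  (univ : Finset (V × V)).filter (fun p => ∃ g : Γ, g • a = p.1 ∧ g • b = p.2)

open Classical in
theorem orbit_color (m : ℕ) (F : SimpleGraph (Fin m)) (hF : F.IsAcyclic) (k : ℕ)
    (hk : 1 ≤ k) (la : ℝ) (hla : 0 < la) (hla1 : la ≤ 1) :
    ∃ C : ℕ, ∀ (V Γ : Type) [Fintype V] [Group Γ] [MulAction Γ V] (G : SimpleGraph V),
      (∀ (g : Γ) u v, G.Adj (g • u) (g • v) ↔ G.Adj u v) →
      (∀ a b, G.Adj a b → la * ((arcs G).card : ℝ) ≤ ((arcOrb Γ a b).card : ℝ)) →
      G.CliqueFree (k + 1) → IsEmpty (F ↪g G) → G.Colorable C := by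
  obtain ⟨C, hC⟩ := coherent_color m F hF k hk la hla hla1
  refine ⟨(⌊1 / la⌋₊ + 1) * (C + 1), ?_⟩
  intro V Γ _ _ _ G hG hval hfree hemp
  -- colouring of one orbit
  have horb : ∀ v : V, (G.induce (MulAction.orbit Γ v)).Colorable C := by
    intro v
    have hsm : ∀ (g : Γ) (x : MulAction.orbit Γ v), ((g • x : MulAction.orbit Γ v) : V) =
        g • (x : V) := fun g x => rfl
    have htr : ∀ x y : MulAction.orbit Γ v, ∃ g : Γ, g • x = y :=
      fun x y => MulAction.exists_smul_eq Γ x y
    have hadj : ∀ (g : Γ) (x y : MulAction.orbit Γ v),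
        (G.induce (MulAction.orbit Γ v)).Adj (g • x) (g • y) ↔
          (G.induce (MulAction.orbit Γ v)).Adj x y := by
      intro g x y
      rw [SimpleGraph.comap_adj, SimpleGraph.comap_adj]
      exact hG g x y
    have hcl : ∀ x y x' y' : MulAction.orbit Γ v, pcl Γ x y = pcl Γ x' y' →
        (G.induce (MulAction.orbit Γ v)).Adj x y → (G.induce (MulAction.orbit Γ v)).Adj x' y' := by
      intro x y x' y' h hxy
      obtain ⟨g, h1, h2⟩ := (pcl_eq x y x' y').1 h
      rw [← h1, ← h2, hadj] at hxy
      exact hxy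
    have hcoh := coh_of_transitive (Γ := Γ) htr
    refine hC (MulAction.orbit Γ v) (Set (MulAction.orbit Γ v × MulAction.orbit Γ v)) (pcl Γ)
      (G.induce (MulAction.orbit Γ v)) hcoh hcl ?_ ?_ ?_
    · intro a b hab
      set H := G.induce (MulAction.orbit Γ v) with hH
      set n := Fintype.card (MulAction.orbit Γ v) with hn
      have hn0 : 0 < n := Fintype.card_pos_iff.2 ⟨a⟩
      have h1 : (arcs H).card = n * (nb H a).card := by
        have h2 : (arcs H).card = ∑ x : MulAction.orbit Γ v, (nb H x).card := by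
          unfold arcs nb
          rw [← Finset.univ_product_univ, Finset.card_filter, Finset.sum_product]
          apply Finset.sum_congr rfl
          intro x _
          rw [Finset.card_filter]
        rw [h2, Finset.sum_congr rfl (fun x _ => nb_cl hcoh hcl x a), Finset.sum_const,
          smul_eq_mul, Finset.card_univ]
      have h3 : (arcs H).card ≤ (arcs G).card := by
        refine Finset.card_le_card_of_injOn (fun p => (p.1.1, p.2.1)) ?_ ?_
        · intro p hp
          have hp' := (Finset.mem_filter.1 (Finset.mem_coe.1 hp)).2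
          exact Finset.mem_coe.2 (Finset.mem_filter.2 ⟨Finset.mem_univ _, hp'⟩)
        · intro p _ p' _ h
          rw [Prod.ext_iff] at h
          exact Prod.ext (Subtype.ext h.1) (Subtype.ext h.2)
      have h4 : (arcOrb Γ (a : V) (b : V)).card ≤ n * (outS (pcl Γ) (pcl Γ a b) a).card := by
        have h5 : (arcOrb Γ (a : V) (b : V)).card ≤
            ((univ : Finset (MulAction.orbit Γ v × MulAction.orbit Γ v)).filter
              (fun p => pcl Γ p.1 p.2 = pcl Γ a b)).card := by
          apply Finset.card_le_card_of_surjOn (fun p => (p.1.1, p.2.1))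
          intro p hp
          obtain ⟨_, g, hg1, hg2⟩ := Finset.mem_filter.1 (Finset.mem_coe.1 hp)
          refine ⟨(g • a, g • b), ?_, ?_⟩
          · rw [Finset.mem_coe, Finset.mem_filter]
            refine ⟨Finset.mem_univ _, ?_⟩
            exact pcl_smul g a b
          · exact Prod.ext hg1 hg2
        refine h5.trans (le_of_eq ?_)
        have h6 : ((univ : Finset (MulAction.orbit Γ v × MulAction.orbit Γ v)).filter
            (fun p => pcl Γ p.1 p.2 = pcl Γ a b)).card =
            ∑ x : MulAction.orbit Γ v, (outS (pcl Γ) (pcl Γ a b) x).card := by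
          unfold outS
          rw [← Finset.univ_product_univ, Finset.card_filter, Finset.sum_product]
          apply Finset.sum_congr rfl
          intro x _
          rw [Finset.card_filter]
          rfl
        rw [h6, Finset.sum_congr rfl (fun x _ => card_out hcoh (pcl Γ a b) x a), Finset.sum_const,
          smul_eq_mul, Finset.card_univ]
      have h7 := hval a b hab
      have h1' : ((arcs H).card : ℝ) = n * ((nb H a).card : ℝ) := by exact_mod_cast h1
      have h3' : ((arcs H).card : ℝ) ≤ ((arcs G).card : ℝ) := by exact_mod_cast h3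
      have h4' : ((arcOrb Γ (a : V) (b : V)).card : ℝ) ≤
          n * ((outS (pcl Γ) (pcl Γ a b) a).card : ℝ) := by exact_mod_cast h4
      have hn0' : (0 : ℝ) < n := by exact_mod_cast hn0
      have h8 : (n : ℝ) * (la * ((nb H a).card : ℝ)) ≤
          n * ((outS (pcl Γ) (pcl Γ a b) a).card : ℝ) := by
        calc (n : ℝ) * (la * ((nb H a).card : ℝ)) = la * ((arcs H).card : ℝ) := by
              rw [h1']
              ring
          _ ≤ la * ((arcs G).card : ℝ) := mul_le_mul_of_nonneg_left h3' hla.le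
          _ ≤ ((arcOrb Γ (a : V) (b : V)).card : ℝ) := h7
          _ ≤ _ := h4'
      exact le_of_mul_le_mul_left h8 hn0'
    · exact hfree.comap
        ⟨(SimpleGraph.Embedding.comap (Function.Embedding.subtype _) G).toCopy⟩
    · exact ⟨fun e => hemp.false (e.trans
        (SimpleGraph.Embedding.comap (Function.Embedding.subtype _) G))⟩
  -- the classes of the vertices which are not isolated
  set cls : V → Set V := fun v => MulAction.orbit Γ v with hcls
  have hmem : ∀ v : V, v ∈ MulAction.orbit Γ v := fun v => MulAction.mem_orbit_self v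
  set O : Finset (Set V) :=
    ((univ : Finset V).filter (fun v => ∃ w, G.Adj v w)).image cls with hO
  have hOc : O.card ≤ ⌊1 / la⌋₊ := by
    by_cases hO0 : O = ∅
    · rw [hO0]
      simp
    obtain ⟨o0, ho0⟩ := Finset.nonempty_iff_ne_empty.2 hO0
    obtain ⟨v0, hv0, _⟩ := Finset.mem_image.1 ho0
    obtain ⟨w0, hw0⟩ := (Finset.mem_filter.1 hv0).2
    have harc : 0 < (arcs G).card :=
      Finset.card_pos.2 ⟨(v0, w0), Finset.mem_filter.2 ⟨Finset.mem_univ _, hw0⟩⟩
    have hmaps : ∀ p ∈ arcs G, cls p.1 ∈ O := by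
      intro p hp
      exact Finset.mem_image.2 ⟨p.1, Finset.mem_filter.2
        ⟨Finset.mem_univ _, p.2, (Finset.mem_filter.1 hp).2⟩, rfl⟩
    have h1 := Finset.card_eq_sum_card_fiberwise (s := arcs G) (t := O)
      (f := fun p => cls p.1) (fun p hp => Finset.mem_coe.2 (hmaps p (Finset.mem_coe.1 hp)))
    have h2 : ∀ o ∈ O, la * ((arcs G).card : ℝ) ≤
        (((arcs G).filter (fun p => cls p.1 = o)).card : ℝ) := by
      intro o ho
      obtain ⟨v, hv, rfl⟩ := Finset.mem_image.1 ho
      obtain ⟨w, hw⟩ := (Finset.mem_filter.1 hv).2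
      refine (hval v w hw).trans ?_
      have : (arcOrb Γ v w).card ≤ ((arcs G).filter (fun p => cls p.1 = cls v)).card := by
        apply Finset.card_le_card
        intro p hp
        obtain ⟨_, g, hg1, hg2⟩ := Finset.mem_filter.1 hp
        refine Finset.mem_filter.2 ⟨Finset.mem_filter.2 ⟨Finset.mem_univ _, ?_⟩, ?_⟩
        · rw [← hg1, ← hg2, hG]
          exact hw
        · change MulAction.orbit Γ p.1 = MulAction.orbit Γ v
          rw [← hg1]
          exact MulAction.orbit_eq_iff.2 ⟨g, rfl⟩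
      exact_mod_cast this
    have h3 : (O.card : ℝ) * (la * ((arcs G).card : ℝ)) ≤ ((arcs G).card : ℝ) := by
      calc (O.card : ℝ) * (la * ((arcs G).card : ℝ)) = ∑ o ∈ O, la * ((arcs G).card : ℝ) := by
            rw [Finset.sum_const, nsmul_eq_mul]
        _ ≤ ∑ o ∈ O, (((arcs G).filter (fun p => cls p.1 = o)).card : ℝ) := Finset.sum_le_sum h2
        _ = ((arcs G).card : ℝ) := by exact_mod_cast h1.symm
    have harc' : (0 : ℝ) < ((arcs G).card : ℝ) := by exact_mod_cast harc
    have h4 : (O.card : ℝ) ≤ 1 / la := by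
      rw [le_div_iff₀ hla]
      have : ((O.card : ℝ) * la) * ((arcs G).card : ℝ) ≤ 1 * ((arcs G).card : ℝ) := by
        linarith
      exact le_of_mul_le_mul_right this harc'
    exact Nat.le_floor h4
  -- the colouring
  have hcol : ∀ v : V, ∃ c : MulAction.orbit Γ v → Fin C, ∀ x y : MulAction.orbit Γ v,
      G.Adj x y → c x ≠ c y := by
    intro v
    obtain ⟨c⟩ := horb v
    exact ⟨c, fun x y h => c.valid h⟩
  have hf : ∀ o : Set V, ∃ f : V → Option (Fin C), (∃ v, cls v = o) →
      ∀ x ∈ o, ∀ y ∈ o, G.Adj x y → f x ≠ f y := by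
    intro o
    by_cases h : ∃ v, cls v = o
    · obtain ⟨v, rfl⟩ := h
      obtain ⟨c, hc⟩ := hcol v
      refine ⟨fun x => if h : x ∈ MulAction.orbit Γ v then some (c ⟨x, h⟩) else none, ?_⟩
      intro _ x hx y hy hxy
      have hx' : x ∈ MulAction.orbit Γ v := hx
      have hy' : y ∈ MulAction.orbit Γ v := hy
      simp only [dif_pos hx', dif_pos hy']
      intro heq
      exact hc ⟨x, hx'⟩ ⟨y, hy'⟩ hxy (Option.some_injective _ heq)
    · exact ⟨fun _ => none, fun h' => absurd h' h⟩
  choose f hf using hf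
  have hcoloring : G.Coloring (Option O × Option (Fin C)) := by
    refine SimpleGraph.Coloring.mk (fun v =>
      (if h : cls v ∈ O then some ⟨cls v, h⟩ else none, f (cls v) v)) ?_
    intro x y hxy heq
    rw [Prod.ext_iff] at heq
    obtain ⟨h1, h2⟩ := heq
    have hxO : cls x ∈ O := Finset.mem_image.2 ⟨x, Finset.mem_filter.2
      ⟨Finset.mem_univ _, y, hxy⟩, rfl⟩
    have hyO : cls y ∈ O := Finset.mem_image.2 ⟨y, Finset.mem_filter.2
      ⟨Finset.mem_univ _, x, hxy.symm⟩, rfl⟩
    simp only [dif_pos hxO, dif_pos hyO] at h1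
    have h3 : cls x = cls y := congrArg Subtype.val (Option.some_injective _ h1)
    have h2' : f (cls x) x = f (cls x) y := by
      have h4 : f (cls x) x = f (cls y) y := h2
      rw [← h3] at h4
      exact h4
    refine hf (cls x) ⟨x, rfl⟩ x (hmem x) y ?_ hxy h2'
    rw [h3]
    exact hmem y
  refine hcoloring.colorable.mono ?_
  rw [Fintype.card_prod, Fintype.card_option, Fintype.card_option, Fintype.card_fin,
    Fintype.card_coe]
  exact Nat.mul_le_mul_right _ (Nat.succ_le_succ hOc)

end Pool.Agent.Q112.GS
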